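import Pool.Agent.H184.Gomoku.Sound3

set_option autoImplicit false

/-!
# Far stones: environments, thin sets, control of a line
-/

namespace Pool.Agent.H184.Gomoku

open Classical in
/-- number of cells of `U` on the line `a, a + d, …, a + 4 d` -/
noncomputable def cnt (U : Set Cell) (a d : Cell) : ℕ :=
  ((Finset.range 5).filter (fun k : ℕ => a + (k : ℤ) • d ∈ U)).card

/-- the line has no cell in `X` -/
def Free (X : Set Cell) (a d : Cell) : Prop := ∀ k : ℕ, k < 5 → a + (k : ℤ) • d ∉ X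

/-- every line free of `EA` has at most `c` cells of `U` -/
def Thin (EA U : Set Cell) (c : ℕ) : Prop := ∀ a d : Cell, d ∈ dirs → Free EA a d → cnt U a d ≤ c

/-- the extra stones `EA`, `U` are outside the zone `E` and the lines free of `EA` that meet `E` have at most
one cell of `U` -/
def Near (E EA U : Set Cell) : Prop :=
  (∀ c ∈ EA, c ∉ E) ∧ (∀ c ∈ U, c ∉ E) ∧ (∀ c ∈ EA, c ∉ U) ∧
    ∀ a d : Cell, d ∈ dirs → Free EA a d → (∃ k : ℕ, k < 5 ∧ a + (k : ℤ) • d ∈ E) → cnt U a d ≤ 1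

/-- `Ctl E m j EA U V`: the owner of `EA` controls the stones `U ∪ V` of the other player, who may place `j`
further stones without an answer; every other far stone of his gets an answer outside `E`. `m` bounds the
number of steps. -/
def Ctl (E : Set Cell) : ℕ → ℕ → Set Cell → Set Cell → Set Cell → Prop
  | 0, j, EA, U, V => Thin EA (U ∪ V) 3 ∧ j = 0
  | m + 1, j, EA, U, V => Thin EA (U ∪ V) 3 ∧ (j = 0 ∨ ∀ y : Cell, y ∉ EA → y ∉ U → y ∉ V →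
      ((∃ i, j = i + 1 ∧ Ctl E m i EA U (insert y V)) ∨
       (∃ b : Cell, b ∉ EA ∧ b ∉ U ∧ b ∉ V ∧ b ≠ y ∧ b ∉ E ∧ y ∉ E ∧ Near E (insert b EA) (insert y U) ∧
          Ctl E m j (insert b EA) (insert y U) V)))

/-- The statement on aligned pairs. -/
def S_pair : Prop :=
  ∀ (E : Set Cell) (w d : Cell), d ∈ dirs → ∀ t lo hi : ℤ,
    ((t = 1 ∧ lo = -3 ∧ hi = 4) ∨ (t = 2 ∧ lo = -4 ∧ hi = 4) ∨ (t = 2 ∧ lo = -2 ∧ hi = 6) ∨
     (t = 3 ∧ lo = -4 ∧ hi = 5) ∨ (t = 3 ∧ lo = -3 ∧ hi = 6) ∨ (t = 3 ∧ lo = -2 ∧ hi = 7) ∨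
     (t = 4 ∧ lo = -3 ∧ hi = 5) ∨ (t = 4 ∧ lo = -1 ∧ hi = 7)) →
    (∀ s : ℤ, lo ≤ s → s ≤ hi → w + s • d ∉ E) →
    Near E ∅ {w, w + t • d} ∧ Ctl E 6 2 ∅ {w, w + t • d} ∅

/-- the eight symmetries of the board, with translations -/
def S_sym : Prop :=
  ∀ (e : Cell ≃ Cell), (∀ a d : Cell, d ∈ dirs → ∃ a' d' : Cell, d' ∈ dirs ∧
      ∀ k : ℕ, k < 5 → ∃ k' : ℕ, k' < 5 ∧ e (a + (k : ℤ) • d) = a' + (k' : ℤ) • d') →
    (∀ a d : Cell, d ∈ dirs → ∃ a' d' : Cell, d' ∈ dirs ∧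
      ∀ k : ℕ, k < 5 → ∃ k' : ℕ, k' < 5 ∧ e.symm (a + (k : ℤ) • d) = a' + (k' : ℤ) • d') →
    ∀ (n : ℕ) (A D : Set Cell), Win n A D → Win n (e '' A) (e '' D)

end Pool.Agent.H184.Gomoku
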