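import Pool.Agent.H184.Gomoku.Game

set_option autoImplicit false

/-!
# A checker for threat trees of five in a row

Positions are stored as natural numbers: bit `i` stands for the cell `(i % 32, i / 32)`.
-/

namespace Pool.Agent.H184.Gomoku

/-- all cells of the window -/
def W : ℕ := 0xffffffffffffffffffffffffffffffffffffffffffffffffffffffffffffffffffffffffffffffffffffffffffffffffffffffffffffffffffffffffffffffffffffffffffffffffffffffffffffffffffffffffffffffffffffffffffffffffffffffffffffffffffffffffffffffffffffffffffffffffffffffffffffffff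
/-- the cells with both coordinates between 4 and 27 -/
def R : ℕ := 0xffffff00ffffff00ffffff00ffffff00ffffff00ffffff00ffffff00ffffff00ffffff00ffffff00ffffff00ffffff00ffffff00ffffff00ffffff00ffffff00ffffff00ffffff00ffffff00ffffff00ffffff00ffffff00ffffff00ffffff000000000000000000000000000000000

/-- single bit -/
def bit (x : ℕ) : ℕ := Nat.shiftLeft 1 x
/-- inclusion of bit sets -/
def sub (a b : ℕ) : Bool := Nat.beq (Nat.land a b) a
/-- disjointness of bit sets -/
def dis (a b : ℕ) : Bool := Nat.beq (Nat.land a b) 0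

/-- some of the five bits of the line starting at `i` -/
def hit (A s s2 s4 : ℕ) : ℕ :=
  (fun a1 => Nat.lor (Nat.lor a1 (Nat.shiftRight a1 s2)) (Nat.shiftRight A s4)) (Nat.lor A (Nat.shiftRight A s))

/-- lines with at least four bits -/
def fz0s (A D s s2 s3 s4 : ℕ) : Bool :=
  (fun d1 d2 d3 d4 => (fun s1 => (fun x4 => sub x4 (hit A s s2 s4))
    (Nat.land (Nat.lor (Nat.land D d1) (Nat.land d2 (Nat.lor D d1)))
      (Nat.lor (Nat.land s1 d3) (Nat.land d4 (Nat.lor s1 d3)))))
    (Nat.xor (Nat.xor D d1) d2))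
  (Nat.shiftRight D s) (Nat.shiftRight D s2) (Nat.shiftRight D s3) (Nat.shiftRight D s4)

def fz1s (A D N1 s s2 s3 s4 : ℕ) : Bool :=
  (fun d1 d2 d3 d4 => (fun s1 => (fun c1 c2 s2' =>
    (fun c4 => (fun c3 => sub (Nat.lor c4 (Nat.land c3 (hit N1 s s2 s4))) (hit A s s2 s4))
      (Nat.lor c4 (Nat.land (Nat.lor c1 c2) s2')))
    (Nat.land c1 c2))
    (Nat.lor (Nat.land D d1) (Nat.land d2 (Nat.lor D d1)))
    (Nat.lor (Nat.land s1 d3) (Nat.land d4 (Nat.lor s1 d3)))
    (Nat.xor (Nat.xor s1 d3) d4))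
    (Nat.xor (Nat.xor D d1) d2))
  (Nat.shiftRight D s) (Nat.shiftRight D s2) (Nat.shiftRight D s3) (Nat.shiftRight D s4)

def fz2s (A D N1 N2 s s2 s3 s4 : ℕ) : Bool :=
  (fun d1 d2 d3 d4 => (fun s1 => (fun c1 c2 s2' l1 l2 =>
    (fun c4 => (fun c3 => sub (Nat.lor c4 (Nat.lor (Nat.land c3 (Nat.lor l1 l2))
        (Nat.land (Nat.lor c1 c2) (Nat.land l1 l2)))) (hit A s s2 s4))
      (Nat.lor c4 (Nat.land (Nat.lor c1 c2) s2')))
    (Nat.land c1 c2))
    (Nat.lor (Nat.land D d1) (Nat.land d2 (Nat.lor D d1)))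
    (Nat.lor (Nat.land s1 d3) (Nat.land d4 (Nat.lor s1 d3)))
    (Nat.xor (Nat.xor s1 d3) d4) (hit N1 s s2 s4) (hit N2 s s2 s4))
    (Nat.xor (Nat.xor D d1) d2))
  (Nat.shiftRight D s) (Nat.shiftRight D s2) (Nat.shiftRight D s3) (Nat.shiftRight D s4)

def fz3s (A D N1 N2 N3 s s2 s3 s4 : ℕ) : Bool :=
  (fun d1 d2 d3 d4 => (fun s1 => (fun c1 c2 s2' l1 l2 l3 =>
    (fun c4 => (fun c3 => sub (Nat.lor c4 (Nat.lor (Nat.land c3 (Nat.lor (Nat.lor l1 l2) l3))
        (Nat.lor (Nat.land (Nat.lor c1 c2) (Nat.lor (Nat.land l1 l2) (Nat.land l3 (Nat.lor l1 l2))))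
          (Nat.land (hit D s s2 s4) (Nat.land (Nat.land l1 l2) l3))))) (hit A s s2 s4))
      (Nat.lor c4 (Nat.land (Nat.lor c1 c2) s2')))
    (Nat.land c1 c2))
    (Nat.lor (Nat.land D d1) (Nat.land d2 (Nat.lor D d1)))
    (Nat.lor (Nat.land s1 d3) (Nat.land d4 (Nat.lor s1 d3)))
    (Nat.xor (Nat.xor s1 d3) d4) (hit N1 s s2 s4) (hit N2 s s2 s4) (hit N3 s s2 s4))
    (Nat.xor (Nat.xor D d1) d2))
  (Nat.shiftRight D s) (Nat.shiftRight D s2) (Nat.shiftRight D s3) (Nat.shiftRight D s4)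

/-- free cells outside a mask -/
def nM (M A D : ℕ) : ℕ := Nat.xor W (Nat.lor M (Nat.lor A D))

/-- the position test: masks are given as a list of at most three bit sets -/
def fz (A D : ℕ) (Ms : List ℕ) : Bool :=
  and (dis A D) (and (sub D R) (match Ms with
  | [] => and (fz0s A D 1 2 3 4) (and (fz0s A D 32 64 96 128) (and (fz0s A D 33 66 99 132) (fz0s A D 31 62 93 124)))
  | [M1] => (fun N1 => and (fz1s A D N1 1 2 3 4) (and (fz1s A D N1 32 64 96 128)
      (and (fz1s A D N1 33 66 99 132) (fz1s A D N1 31 62 93 124)))) (nM M1 A D)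
  | [M1, M2] => (fun N1 N2 => and (fz2s A D N1 N2 1 2 3 4) (and (fz2s A D N1 N2 32 64 96 128)
      (and (fz2s A D N1 N2 33 66 99 132) (fz2s A D N1 N2 31 62 93 124)))) (nM M1 A D) (nM M2 A D)
  | [M1, M2, M3] => (fun N1 N2 N3 => and (fz3s A D N1 N2 N3 1 2 3 4) (and (fz3s A D N1 N2 N3 32 64 96 128)
      (and (fz3s A D N1 N2 N3 33 66 99 132) (fz3s A D N1 N2 N3 31 62 93 124)))) (nM M1 A D) (nM M2 A D) (nM M3 A D)
  | _ => false))

/-- the line patterns -/
def pat (d : ℕ) : ℕ := cond (Nat.beq d 0) 0x1f (cond (Nat.beq d 1) 0x100000001000000010000000100000001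
  (cond (Nat.beq d 2) 0x1000000008000000040000000200000001 0x10000000200000004000000080000001))
def stp (d : ℕ) : ℕ := cond (Nat.beq d 0) 1 (cond (Nat.beq d 1) 32 (cond (Nat.beq d 2) 33 31))

/-- bit set of the line with direction code `d` and start `x - o * step` -/
def lineM (x d o : ℕ) : ℕ := Nat.shiftLeft (pat d) (Nat.sub x (Nat.mul o (stp d)))

/-- read the replies -/
def rdY : ℕ → ℕ → ℕ → List ℕ → (ℕ → ℕ → List ℕ → Bool) → Bool
  | 0, s, Y, l, k => k s Y l
  | c + 1, s, Y, l, k => (fun y => rdY c (Nat.shiftRight s 10) (Nat.lor Y (bit y)) (y :: l) k) (Nat.land s 1023)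

/-- run `f` over the list of replies, skipping occupied cells -/
def chL (f : ℕ → ℕ → (ℕ → Bool) → Bool) (AD D : ℕ) : List ℕ → ℕ → (ℕ → Bool) → Bool
  | [], s, k => k s
  | y :: l, s, k => cond (dis AD (bit y)) (f s (Nat.lor D (bit y)) (fun s' => chL f AD D l s' k))
      (chL f AD D l s k)

/-- positions already known to be won -/
def known : List (ℕ × ℕ) → ℕ → ℕ → Bool
  | [], _, _ => false
  | p :: l, A, D => or (and (Nat.beq p.1 A) (Nat.beq p.2 D)) (known l A D)

/-- The checker. `s` is the instruction stream, `C` the cells that may be used directly. -/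
def chk (K : List (ℕ × ℕ)) : ℕ → ℕ → ℕ → ℕ → ℕ → List ℕ → (ℕ → Bool) → Bool
  | 0, _, _, _, _, _, _ => false
  | n + 1, s, A, D, C, Ms, k =>
    (fun t => cond (Nat.beq t 0)
      -- five
      ((fun x => (fun bx m => and (sub bx C) (and (dis (Nat.lor A D) bx) (and (sub m (Nat.lor A bx)) (and (sub m R)
          (k (Nat.shiftRight s 17))))))
        (bit x) (lineM x (Nat.land (Nat.shiftRight s 12) 3) (Nat.land (Nat.shiftRight s 14) 7)))
        (Nat.land (Nat.shiftRight s 2) 1023))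
      (cond (Nat.beq t 1)
      -- four
      ((fun x y => (fun bx bY => (fun bxy m => and (sub bxy C) (and (dis (Nat.lor A D) bxy) (and (dis bx bY)
          (and (sub m (Nat.lor A bxy)) (and (sub m R) (and (fz (Nat.lor A bx) D Ms)
          (chk K n (Nat.shiftRight s 27) (Nat.lor A bx) (Nat.lor D bY) C Ms k)))))))
          (Nat.lor bx bY) (lineM x (Nat.land (Nat.shiftRight s 22) 3) (Nat.land (Nat.shiftRight s 24) 7)))
        (bit x) (bit y))
        (Nat.land (Nat.shiftRight s 2) 1023) (Nat.land (Nat.shiftRight s 12) 1023))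
      (cond (Nat.beq t 2)
      -- quiet
      ((fun x c => (fun bx => (fun A' => and (sub bx C) (and (dis (Nat.lor A D) bx) (and (fz A' D Ms)
          (rdY c (Nat.shiftRight s 20) 0 [] (fun s1 Y l => chk K n s1 A' D (Nat.land C Y) (Y :: Ms)
            (fun s2 => chL (fun s3 D' k' => chk K n s3 A' D' C Ms k') (Nat.lor A' D) D l s2 k))))))
          (Nat.lor A bx)) (bit x))
        (Nat.land (Nat.shiftRight s 2) 1023) (Nat.land (Nat.shiftRight s 12) 255))
      -- known position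
      (and (known K A D) (and (match Ms with | [] => true | _ => false) (k (Nat.shiftRight s 2)))))))
    (Nat.land s 3)

end Pool.Agent.H184.Gomoku
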