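import Mathlib

set_option autoImplicit false

/-!
# Five in a row on the infinite board: bounded wins give strategies
-/

namespace Pool.Agent.H184.Gomoku

/-- Cells of the infinite board. -/
abbrev Cell := ℤ × ℤ

/-- The four line directions. -/
def dirs : Finset Cell := {((1 : ℤ), (0 : ℤ)), ((0 : ℤ), (1 : ℤ)), ((1 : ℤ), (1 : ℤ)), ((1 : ℤ), (-1 : ℤ))}

/-- The set `S` contains five consecutive cells of a line. -/
def Five (S : Set Cell) : Prop :=
  ∃ a d : Cell, d ∈ dirs ∧ ∀ k : ℕ, k < 5 → a + (k : ℤ) • d ∈ S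

theorem Five.mono {S T : Set Cell} (h : S ⊆ T) : Five S → Five T := by
  rintro ⟨a, d, hd, hk⟩
  exact ⟨a, d, hd, fun k hk5 => h (hk k hk5)⟩

/-- `Win n A D`: the player who owns `A` and is to move completes a line within `n` moves, before the owner
of `D` completes one. -/
def Win : ℕ → Set Cell → Set Cell → Prop
  | 0, _, _ => False
  | n + 1, A, D => ∃ x, x ∉ A ∧ x ∉ D ∧ (Five (insert x A) ∨
      ∀ y, y ∉ insert x A → y ∉ D → ¬ Five (insert y D) ∧ Win n (insert x A) (insert y D))

theorem Win.succ {n : ℕ} : ∀ {A D : Set Cell}, Win n A D → Win (n + 1) A D := by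
  induction n with
  | zero => intro A D h; exact h.elim
  | succ n ih =>
    rintro A D ⟨x, hA, hD, h⟩
    refine ⟨x, hA, hD, h.imp id fun h y hy hy' => ⟨(h y hy hy').1, ih (h y hy hy').2⟩⟩

theorem Win.mono {n m : ℕ} (hnm : n ≤ m) {A D : Set Cell} (h : Win n A D) : Win m A D := by
  induction hnm with
  | refl => exact h
  | step _ ih => exact ih.succ

open Classical in
/-- A cell outside a given list. -/
theorem exists_free (l : List Cell) : ∃ c : Cell, c ∉ l := by
  have : (l.toFinset : Set Cell) ≠ Set.univ := fun h =>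
    Set.infinite_univ (h ▸ l.toFinset.finite_toSet)
  obtain ⟨c, hc⟩ := (Set.ne_univ_iff_exists_notMem _).1 this
  exact ⟨c, fun h => hc (by simpa using h)⟩

/-- The cells at even places of the list. -/
def evens (l : List Cell) : Set Cell := {c | ∃ i, l[2 * i]? = some c}
/-- The cells at odd places of the list. -/
def odds (l : List Cell) : Set Cell := {c | ∃ i, l[2 * i + 1]? = some c}

open Classical in
/-- The strategy derived from `Win N ∅ ∅`. -/
noncomputable def strat (N : ℕ) (l : List Cell) : Cell :=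
  if h : ∃ x, x ∉ l ∧ (Five (insert x (evens l)) ∨
      ∀ y, y ∉ insert x (evens l) → y ∉ odds l → ¬ Five (insert y (odds l)) ∧
        Win (N - l.length / 2 - 1) (insert x (evens l)) (insert y (odds l)))
  then h.choose else (exists_free l).choose

theorem strat_notMem (N : ℕ) (l : List Cell) : strat N l ∉ l := by
  unfold strat
  split_ifs with h
  · exact h.choose_spec.1
  · exact (exists_free l).choose_spec

theorem strategy_of_win (N : ℕ) (h : Win N ∅ ∅) :
    ∃ σ : List Cell → Cell, ∀ p : ℕ → Cell,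
      (∀ k : ℕ, p (2 * k) = σ (List.ofFn (fun i : Fin (2 * k) => p i))) →
      (∀ k i : ℕ, i < 2 * k + 1 → p i ≠ p (2 * k + 1)) →
      (∀ k i : ℕ, i < 2 * k → p i ≠ p (2 * k)) ∧
      ∃ m : ℕ, m < N ∧ Five {c | ∃ i, i ≤ m ∧ p (2 * i) = c} ∧
        ¬ Five {c | ∃ i, i < m ∧ p (2 * i + 1) = c} := by
  refine ⟨strat N, fun p h1 h2 => ?_⟩
  have hl : ∀ k : ℕ, ∀ c, c ∈ List.ofFn (fun i : Fin (2 * k) => p i) ↔ ∃ i, i < 2 * k ∧ p i = c := by
    intro k c
    rw [List.mem_ofFn']
    constructor
    · rintro ⟨i, rfl⟩; exact ⟨i, i.2, rfl⟩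
    · rintro ⟨i, hi, rfl⟩; exact ⟨⟨i, hi⟩, rfl⟩
  have hev : ∀ k : ℕ, evens (List.ofFn (fun i : Fin (2 * k) => p i)) = {c | ∃ i, i < k ∧ p (2 * i) = c} := by
    intro k
    ext c
    simp only [evens, Set.mem_setOf_eq, List.getElem?_ofFn]
    constructor
    · rintro ⟨i, hi⟩
      split_ifs at hi with h3
      · exact ⟨i, by omega, by simpa using hi⟩
    · rintro ⟨i, hi, rfl⟩
      exact ⟨i, by rw [dif_pos (by omega)]⟩
  have hod : ∀ k : ℕ, odds (List.ofFn (fun i : Fin (2 * k) => p i)) = {c | ∃ i, i < k ∧ p (2 * i + 1) = c} := by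
    intro k
    ext c
    simp only [odds, Set.mem_setOf_eq, List.getElem?_ofFn]
    constructor
    · rintro ⟨i, hi⟩
      split_ifs at hi with h3
      · exact ⟨i, by omega, by simpa using hi⟩
    · rintro ⟨i, hi, rfl⟩
      exact ⟨i, by rw [dif_pos (by omega)]⟩
  have legal : ∀ k i : ℕ, i < 2 * k → p i ≠ p (2 * k) := by
    intro k i hi he
    have := strat_notMem N (List.ofFn (fun i : Fin (2 * k) => p i))
    rw [← h1 k, hl] at this
    exact this ⟨i, hi, he⟩
  refine ⟨legal, ?_⟩
  by_contra hcon
  push_neg at hcon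
  -- the sets after `k` rounds
  have key : ∀ k : ℕ, k ≤ N →
      Win (N - k) {c | ∃ i, i < k ∧ p (2 * i) = c} {c | ∃ i, i < k ∧ p (2 * i + 1) = c} ∧
      ¬ Five {c | ∃ i, i < k ∧ p (2 * i + 1) = c} := by
    intro k
    induction k with
    | zero =>
      intro _
      have e1 : {c : Cell | ∃ i, i < 0 ∧ p (2 * i) = c} = ∅ := by ext c; simp
      have e2 : {c : Cell | ∃ i, i < 0 ∧ p (2 * i + 1) = c} = ∅ := by ext c; simp
      rw [e1, e2]
      refine ⟨h, ?_⟩
      rintro ⟨a, d, _, hk⟩
      exact hk 0 (by norm_num)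
    | succ k ih =>
      intro hk
      obtain ⟨hW, hF⟩ := ih (by omega)
      set A : Set Cell := {c | ∃ i, i < k ∧ p (2 * i) = c} with hA
      set D : Set Cell := {c | ∃ i, i < k ∧ p (2 * i + 1) = c} with hD
      have hN : N - k = (N - k - 1) + 1 := by omega
      rw [hN] at hW
      have hW' : ∃ x, x ∉ List.ofFn (fun i : Fin (2 * k) => p i) ∧
          (Five (insert x (evens (List.ofFn (fun i : Fin (2 * k) => p i)))) ∨
          ∀ y, y ∉ insert x (evens (List.ofFn (fun i : Fin (2 * k) => p i))) →
            y ∉ odds (List.ofFn (fun i : Fin (2 * k) => p i)) →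
            ¬ Five (insert y (odds (List.ofFn (fun i : Fin (2 * k) => p i)))) ∧
            Win (N - (List.ofFn (fun i : Fin (2 * k) => p i)).length / 2 - 1)
              (insert x (evens (List.ofFn (fun i : Fin (2 * k) => p i))))
              (insert y (odds (List.ofFn (fun i : Fin (2 * k) => p i))))) := by
        obtain ⟨x, hxA, hxD, hx⟩ := hW
        refine ⟨x, ?_, ?_⟩
        · rw [hl]
          rintro ⟨i, hi, rfl⟩
          rcases Nat.even_or_odd' i with ⟨j, rfl | rfl⟩
          · exact hxA ⟨j, by omega, rfl⟩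
          · exact hxD ⟨j, by omega, rfl⟩
        · rw [hev, hod, List.length_ofFn]
          have : N - 2 * k / 2 - 1 = N - k - 1 := by omega
          rw [this]
          exact hx
      have hs := h1 k
      unfold strat at hs
      rw [dif_pos hW'] at hs
      have hspec := hW'.choose_spec
      rw [← hs] at hspec
      obtain ⟨-, hx⟩ := hspec
      rw [hev, hod, List.length_ofFn] at hx
      have hNk : N - 2 * k / 2 - 1 = N - (k + 1) := by omega
      rw [hNk, ← hA, ← hD] at hx
      have eA : {c : Cell | ∃ i, i < k + 1 ∧ p (2 * i) = c} = insert (p (2 * k)) A := by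
        ext c
        simp only [Set.mem_setOf_eq, Set.mem_insert_iff, hA]
        constructor
        · rintro ⟨i, hi, rfl⟩
          rcases Nat.lt_succ_iff_lt_or_eq.1 hi with hi | rfl
          · exact Or.inr ⟨i, hi, rfl⟩
          · exact Or.inl rfl
        · rintro (rfl | ⟨i, hi, rfl⟩)
          · exact ⟨k, by omega, rfl⟩
          · exact ⟨i, by omega, rfl⟩
      have eD : {c : Cell | ∃ i, i < k + 1 ∧ p (2 * i + 1) = c} = insert (p (2 * k + 1)) D := by
        ext c
        simp only [Set.mem_setOf_eq, Set.mem_insert_iff, hD]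
        constructor
        · rintro ⟨i, hi, rfl⟩
          rcases Nat.lt_succ_iff_lt_or_eq.1 hi with hi | rfl
          · exact Or.inr ⟨i, hi, rfl⟩
          · exact Or.inl rfl
        · rintro (rfl | ⟨i, hi, rfl⟩)
          · exact ⟨k, by omega, rfl⟩
          · exact ⟨i, by omega, rfl⟩
      rcases hx with hx | hx
      · exfalso
        refine hF (hcon k (by omega) ?_)
        have eA' : {c : Cell | ∃ i, i ≤ k ∧ p (2 * i) = c} = insert (p (2 * k)) A := by
          rw [← eA]; ext c; simp only [Set.mem_setOf_eq, Nat.lt_succ_iff]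
        rw [eA']
        exact hx
      · rw [eA, eD]
        have hy := hx (p (2 * k + 1)) (by
          simp only [Set.mem_insert_iff, not_or]
          refine ⟨fun he => h2 k (2 * k) (by omega) he.symm, ?_⟩
          rintro ⟨i, hi, he⟩
          exact h2 k (2 * i) (by omega) he) (by
          rintro ⟨i, hi, he⟩
          exact h2 k (2 * i + 1) (by omega) he)
        exact ⟨hy.2, hy.1⟩
  have := (key N le_rfl).1
  rw [Nat.sub_self] at this
  exact this

end Pool.Agent.H184.Gomoku
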