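import Pool.Agent.H184.Gomoku.Checker

set_option autoImplicit false

/-!
# Soundness of the position test
-/

namespace Pool.Agent.H184.Gomoku

/-- cell of an index -/
def cell (i : ℕ) : Cell := (((i % 32 : ℕ) : ℤ), ((i / 32 : ℕ) : ℤ))

theorem cell_inj {i j : ℕ} (h : cell i = cell j) : i = j := by
  unfold cell at h
  rw [Prod.mk.injEq] at h
  obtain ⟨h1, h2⟩ := h
  have h1' : i % 32 = j % 32 := by exact_mod_cast h1
  have h2' : i / 32 = j / 32 := by exact_mod_cast h2
  omega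

/-- the set of cells of a bit set -/
def bd (A : ℕ) : Set Cell := {c | ∃ i, A.testBit i = true ∧ cell i = c}

theorem mem_bd {A i : ℕ} : cell i ∈ bd A ↔ A.testBit i = true := by
  constructor
  · rintro ⟨j, hj, he⟩
    rwa [← cell_inj he]
  · intro h; exact ⟨i, h, rfl⟩

theorem tb_land (a b i : ℕ) : (Nat.land a b).testBit i = (a.testBit i && b.testBit i) := Nat.testBit_and a b i
theorem tb_lor (a b i : ℕ) : (Nat.lor a b).testBit i = (a.testBit i || b.testBit i) := Nat.testBit_or a b i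
theorem tb_xor (a b i : ℕ) : (Nat.xor a b).testBit i = (a.testBit i ^^ b.testBit i) := Nat.testBit_xor a b i
theorem tb_shr (a s i : ℕ) : (Nat.shiftRight a s).testBit i = a.testBit (s + i) := Nat.testBit_shiftRight a
theorem tb_bit (x i : ℕ) : (bit x).testBit i = decide (x = i) := by
  have : bit x = 2 ^ x := by unfold bit; exact Nat.one_shiftLeft x
  rw [this, Nat.testBit_two_pow]

theorem sub_iff {a b : ℕ} : sub a b = true ↔ ∀ i, a.testBit i = true → b.testBit i = true := by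
  unfold sub
  constructor
  · intro h i hi
    have h' : Nat.land a b = a := Nat.eq_of_beq_eq_true h
    have : (Nat.land a b).testBit i = true := by rw [h']; exact hi
    rw [tb_land, hi] at this
    simpa using this
  · intro h
    have : Nat.land a b = a := by
      apply Nat.eq_of_testBit_eq
      intro i
      rw [tb_land]
      cases ha : a.testBit i
      · rfl
      · rw [h i ha]; rfl
    rw [this]; exact Nat.beq_refl a

theorem dis_iff {a b : ℕ} : dis a b = true ↔ ∀ i, a.testBit i = true → b.testBit i = false := by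
  unfold dis
  constructor
  · intro h i hi
    have h' : Nat.land a b = 0 := Nat.eq_of_beq_eq_true h
    have : (Nat.land a b).testBit i = false := by rw [h']; exact Nat.zero_testBit i
    rw [tb_land, hi] at this
    simpa using this
  · intro h
    have : Nat.land a b = 0 := by
      apply Nat.eq_of_testBit_eq
      intro i
      rw [tb_land, Nat.zero_testBit]
      cases ha : a.testBit i
      · rfl
      · rw [h i ha]; rfl
    rw [this]; rfl

theorem bd_lor (a b : ℕ) : bd (Nat.lor a b) = bd a ∪ bd b := by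
  ext c
  constructor
  · rintro ⟨i, hi, rfl⟩
    rw [tb_lor, Bool.or_eq_true] at hi
    exact hi.imp (fun h => ⟨i, h, rfl⟩) (fun h => ⟨i, h, rfl⟩)
  · rintro (⟨i, hi, rfl⟩ | ⟨i, hi, rfl⟩)
    · exact ⟨i, by rw [tb_lor, hi]; rfl, rfl⟩
    · exact ⟨i, by rw [tb_lor, hi, Bool.or_true], rfl⟩

theorem bd_bit (x : ℕ) : bd (bit x) = {cell x} := by
  ext c
  constructor
  · rintro ⟨i, hi, rfl⟩
    rw [tb_bit, decide_eq_true_eq] at hi
    rw [hi]; rfl
  · rintro rfl
    exact ⟨x, by rw [tb_bit]; simp, rfl⟩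

theorem bd_insert (a x : ℕ) : bd (Nat.lor a (bit x)) = insert (cell x) (bd a) := by
  rw [bd_lor, bd_bit, Set.union_singleton]

/-! ### Boolean facts -/

/-- the bits of the line `i, i + s, …` -/
structure IsLine (s s2 s3 s4 : ℕ) : Prop where
  h2 : s2 = 2 * s
  h3 : s3 = 3 * s
  h4 : s4 = 4 * s

theorem tb_hit {A s s2 s3 s4 : ℕ} (hs : IsLine s s2 s3 s4) (i : ℕ) :
    (hit A s s2 s4).testBit i = (A.testBit i || A.testBit (i + s) || A.testBit (i + 2 * s) ||
      A.testBit (i + 3 * s) || A.testBit (i + 4 * s)) := by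
  obtain ⟨rfl, rfl, rfl⟩ := hs
  simp only [hit, tb_lor, tb_shr]
  have e1 : s + i = i + s := by ring
  have e2 : s + (2 * s + i) = i + 3 * s := by ring
  have e3 : 2 * s + i = i + 2 * s := by ring
  have e4 : 4 * s + i = i + 4 * s := by ring
  rw [e1, e2, e3, e4]
  generalize A.testBit i = a0
  generalize A.testBit (i + s) = a1
  generalize A.testBit (i + 2 * s) = a2
  generalize A.testBit (i + 3 * s) = a3
  generalize A.testBit (i + 4 * s) = a4
  revert a0 a1 a2 a3 a4
  decide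

theorem fz0s_spec {A D s s2 s3 s4 : ℕ} (hs : IsLine s s2 s3 s4) (h : fz0s A D s s2 s3 s4 = true) (i : ℕ)
    (b0 b1 b2 b3 b4 : Bool) (e0 : D.testBit i = b0) (e1 : D.testBit (i + s) = b1)
    (e2 : D.testBit (i + 2 * s) = b2) (e3 : D.testBit (i + 3 * s) = b3) (e4 : D.testBit (i + 4 * s) = b4)
    (hA : (hit A s s2 s4).testBit i = false) :
    ¬ 4 ≤ b0.toNat + b1.toNat + b2.toNat + b3.toNat + b4.toNat := by
  obtain ⟨rfl, rfl, rfl⟩ := hs
  unfold fz0s at h
  rw [sub_iff] at h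
  have h := h i
  rw [hA] at h
  simp only [tb_lor, tb_land, tb_xor, tb_shr] at h
  have f1 : s + i = i + s := by ring
  have f2 : 2 * s + i = i + 2 * s := by ring
  have f3 : 3 * s + i = i + 3 * s := by ring
  have f4 : 4 * s + i = i + 4 * s := by ring
  rw [f1, f2, f3, f4, e0, e1, e2, e3, e4] at h
  revert h
  clear e0 e1 e2 e3 e4 hA
  revert b0 b1 b2 b3 b4
  decide

theorem fz1s_spec {A D N1 s s2 s3 s4 : ℕ} (hs : IsLine s s2 s3 s4) (h : fz1s A D N1 s s2 s3 s4 = true) (i : ℕ)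
    (b0 b1 b2 b3 b4 l1 : Bool) (e0 : D.testBit i = b0) (e1 : D.testBit (i + s) = b1)
    (e2 : D.testBit (i + 2 * s) = b2) (e3 : D.testBit (i + 3 * s) = b3) (e4 : D.testBit (i + 4 * s) = b4)
    (hA : (hit A s s2 s4).testBit i = false) (g1 : (hit N1 s s2 s4).testBit i = l1) :
    ¬ 4 ≤ b0.toNat + b1.toNat + b2.toNat + b3.toNat + b4.toNat + l1.toNat := by
  have hs' := hs
  obtain ⟨rfl, rfl, rfl⟩ := hs
  unfold fz1s at h
  rw [sub_iff] at h
  have h := h i
  rw [hA] at h
  simp only [tb_lor, tb_land, tb_xor, tb_shr] at h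
  have f1 : s + i = i + s := by ring
  have f2 : 2 * s + i = i + 2 * s := by ring
  have f3 : 3 * s + i = i + 3 * s := by ring
  have f4 : 4 * s + i = i + 4 * s := by ring
  rw [f1, f2, f3, f4, e0, e1, e2, e3, e4, g1] at h
  revert h
  clear e0 e1 e2 e3 e4 hA g1
  revert b0 b1 b2 b3 b4 l1
  decide

theorem fz2s_spec {A D N1 N2 s s2 s3 s4 : ℕ} (hs : IsLine s s2 s3 s4) (h : fz2s A D N1 N2 s s2 s3 s4 = true)
    (i : ℕ)
    (b0 b1 b2 b3 b4 l1 l2 : Bool) (e0 : D.testBit i = b0) (e1 : D.testBit (i + s) = b1)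
    (e2 : D.testBit (i + 2 * s) = b2) (e3 : D.testBit (i + 3 * s) = b3) (e4 : D.testBit (i + 4 * s) = b4)
    (hA : (hit A s s2 s4).testBit i = false) (g1 : (hit N1 s s2 s4).testBit i = l1)
    (g2 : (hit N2 s s2 s4).testBit i = l2) :
    ¬ 4 ≤ b0.toNat + b1.toNat + b2.toNat + b3.toNat + b4.toNat + l1.toNat + l2.toNat := by
  obtain ⟨rfl, rfl, rfl⟩ := hs
  unfold fz2s at h
  rw [sub_iff] at h
  have h := h i
  rw [hA] at h
  simp only [tb_lor, tb_land, tb_xor, tb_shr] at h
  have f1 : s + i = i + s := by ring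
  have f2 : 2 * s + i = i + 2 * s := by ring
  have f3 : 3 * s + i = i + 3 * s := by ring
  have f4 : 4 * s + i = i + 4 * s := by ring
  rw [f1, f2, f3, f4, e0, e1, e2, e3, e4, g1, g2] at h
  revert h
  clear e0 e1 e2 e3 e4 hA g1 g2
  revert b0 b1 b2 b3 b4 l1 l2
  decide

theorem fz3s_spec {A D N1 N2 N3 s s2 s3 s4 : ℕ} (hs : IsLine s s2 s3 s4)
    (h : fz3s A D N1 N2 N3 s s2 s3 s4 = true) (i : ℕ)
    (b0 b1 b2 b3 b4 l1 l2 l3 : Bool) (e0 : D.testBit i = b0) (e1 : D.testBit (i + s) = b1)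
    (e2 : D.testBit (i + 2 * s) = b2) (e3 : D.testBit (i + 3 * s) = b3) (e4 : D.testBit (i + 4 * s) = b4)
    (hA : (hit A s s2 s4).testBit i = false) (g1 : (hit N1 s s2 s4).testBit i = l1)
    (g2 : (hit N2 s s2 s4).testBit i = l2) (g3 : (hit N3 s s2 s4).testBit i = l3)
    (hpos : 1 ≤ b0.toNat + b1.toNat + b2.toNat + b3.toNat + b4.toNat) :
    ¬ 4 ≤ b0.toNat + b1.toNat + b2.toNat + b3.toNat + b4.toNat + l1.toNat + l2.toNat + l3.toNat := by
  have hs' := hs
  have hD := tb_hit (A := D) hs i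
  obtain ⟨rfl, rfl, rfl⟩ := hs
  unfold fz3s at h
  rw [sub_iff] at h
  have h := h i
  rw [hA] at h
  simp only [tb_lor, tb_land, tb_xor, tb_shr] at h
  have f1 : s + i = i + s := by ring
  have f2 : 2 * s + i = i + 2 * s := by ring
  have f3 : 3 * s + i = i + 3 * s := by ring
  have f4 : 4 * s + i = i + 4 * s := by ring
  rw [f1, f2, f3, f4, hD, e0, e1, e2, e3, e4, g1, g2, g3] at h
  revert h hpos
  clear e0 e1 e2 e3 e4 hA g1 g2 g3 hD
  revert b0 b1 b2 b3 b4 l1 l2 l3
  decide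

end Pool.Agent.H184.Gomoku
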