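import Pool.Agent.H184.Gomoku.Sound1

set_option autoImplicit false

/-!
# Soundness of the position test, geometric part
-/

namespace Pool.Agent.H184.Gomoku

theorem R_bound : ∀ j < 1024, R.testBit j = true → 4 ≤ j % 32 ∧ j % 32 ≤ 27 ∧ 4 ≤ j / 32 ∧ j / 32 ≤ 27 := by
  decide +kernel

theorem R_lt : R < 2 ^ 1024 := by decide +kernel

theorem R_spec {j : ℕ} (h : R.testBit j = true) :
    j < 1024 ∧ 4 ≤ j % 32 ∧ j % 32 ≤ 27 ∧ 4 ≤ j / 32 ∧ j / 32 ≤ 27 := by
  have hj : j < 1024 := by
    by_contra hc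
    rw [not_lt] at hc
    have : R < 2 ^ j := lt_of_lt_of_le R_lt (Nat.pow_le_pow_right (by norm_num) hc)
    rw [Nat.testBit_lt_two_pow this] at h
    exact Bool.false_ne_true h
  exact ⟨hj, R_bound j hj h⟩

theorem W_spec {j : ℕ} (h : j < 1024) : W.testBit j = true := by
  have : W = 2 ^ 1024 - 1 := by decide +kernel
  rw [this, Nat.testBit_two_pow_sub_one, decide_eq_true_eq]
  exact h

/-- the admissible steps -/
def IsStep (s : ℕ) : Prop := s = 1 ∨ s = 31 ∨ s = 32 ∨ s = 33

theorem cell_eq {x y : ℕ} (hx : x < 32) : cell (x + 32 * y) = ((x : ℤ), (y : ℤ)) := by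
  unfold cell
  have h1 : (x + 32 * y) % 32 = x := by omega
  have h2 : (x + 32 * y) / 32 = y := by omega
  rw [h1, h2]

theorem frame {S : Set Cell} {a d : Cell} (hd : d ∈ dirs) (hk : ∀ k : ℕ, k < 5 → a + (k : ℤ) • d ∈ S)
    {k0 j0 : ℕ} (hk0 : k0 < 5) (hj : a + (k0 : ℤ) • d = cell j0) (hR : R.testBit j0 = true) :
    ∃ i s : ℕ, IsStep s ∧ i + 4 * s < 1024 ∧ ∀ m : ℕ, m < 5 → cell (i + m * s) ∈ S := by
  obtain ⟨-, hx1, hx2, hy1, hy2⟩ := R_spec hR
  obtain ⟨a1, a2⟩ := a
  unfold cell at hj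
  have hd' : d = (1, 0) ∨ d = (0, 1) ∨ d = (1, 1) ∨ d = (1, -1) := by
    simpa [dirs] using hd
  rcases hd' with rfl | rfl | rfl | rfl
  · simp only [Prod.smul_mk, smul_eq_mul, Prod.mk_add_mk, Prod.mk.injEq] at hj
    obtain ⟨x, rfl⟩ : ∃ x : ℕ, a1 = x := ⟨a1.toNat, by omega⟩
    obtain ⟨y, rfl⟩ : ∃ y : ℕ, a2 = y := ⟨a2.toNat, by omega⟩
    refine ⟨x + 32 * y, 1, Or.inl rfl, by omega, fun m hm => ?_⟩
    have h := hk m hm
    have e : x + 32 * y + m * 1 = (x + m) + 32 * y := by ring
    rw [e, cell_eq (by omega)]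
    convert h using 2 <;> simp
  · simp only [Prod.smul_mk, smul_eq_mul, Prod.mk_add_mk, Prod.mk.injEq] at hj
    obtain ⟨x, rfl⟩ : ∃ x : ℕ, a1 = x := ⟨a1.toNat, by omega⟩
    obtain ⟨y, rfl⟩ : ∃ y : ℕ, a2 = y := ⟨a2.toNat, by omega⟩
    refine ⟨x + 32 * y, 32, Or.inr (Or.inr (Or.inl rfl)), by omega, fun m hm => ?_⟩
    have h := hk m hm
    have e : x + 32 * y + m * 32 = x + 32 * (y + m) := by ring
    rw [e, cell_eq (by omega)]
    convert h using 2 <;> simp
  · simp only [Prod.smul_mk, smul_eq_mul, Prod.mk_add_mk, Prod.mk.injEq] at hj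
    obtain ⟨x, rfl⟩ : ∃ x : ℕ, a1 = x := ⟨a1.toNat, by omega⟩
    obtain ⟨y, rfl⟩ : ∃ y : ℕ, a2 = y := ⟨a2.toNat, by omega⟩
    refine ⟨x + 32 * y, 33, Or.inr (Or.inr (Or.inr rfl)), by omega, fun m hm => ?_⟩
    have h := hk m hm
    have e : x + 32 * y + m * 33 = (x + m) + 32 * (y + m) := by ring
    rw [e, cell_eq (by omega)]
    convert h using 2 <;> simp
  · simp only [Prod.smul_mk, smul_eq_mul, Prod.mk_add_mk, Prod.mk.injEq] at hj
    obtain ⟨x, rfl⟩ : ∃ x : ℕ, a1 = x := ⟨a1.toNat, by omega⟩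
    obtain ⟨y, hy⟩ : ∃ y : ℕ, a2 = y + 4 := ⟨(a2 - 4).toNat, by omega⟩
    subst hy
    refine ⟨(x + 4) + 32 * y, 31, Or.inr (Or.inl rfl), by omega, fun m hm => ?_⟩
    have h := hk (4 - m) (by omega)
    have e : (x + 4) + 32 * y + m * 31 = (x + (4 - m)) + 32 * (y + m) := by omega
    rw [e, cell_eq (by omega)]
    convert h using 2
    · push_cast [Nat.cast_sub (show m ≤ 4 by omega)]; simp
    · push_cast [Nat.cast_sub (show m ≤ 4 by omega)]; simp

/-- The list `us` of further stones avoids the masks and `A`. -/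
def Avoid (A : ℕ) (Ms : List ℕ) (us : List Cell) : Prop :=
  List.Forall₂ (fun u M => u ∉ bd M) us Ms ∧ ∀ u ∈ us, u ∉ bd A

open Classical in
theorem count_le (c : Fin 5 → Cell) (hc : Function.Injective c) (y : Cell) (D : Set Cell) (us : List Cell)
    (h : ∀ m, c m ∈ insert y (D ∪ {u | u ∈ us})) :
    (Finset.univ.filter (fun m => c m ∉ D)).card ≤ 1 + us.countP (fun u => decide (∃ m, c m = u ∧ c m ∉ D)) := by
  rw [← Finset.card_image_of_injective _ hc]
  have hsub : (Finset.univ.filter (fun m => c m ∉ D)).image c ⊆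
      insert y (us.filter (fun u => decide (∃ m, c m = u ∧ c m ∉ D))).toFinset := by
    intro z hz
    rw [Finset.mem_image] at hz
    obtain ⟨m, hm, rfl⟩ := hz
    rw [Finset.mem_filter] at hm
    rw [Finset.mem_insert, List.mem_toFinset, List.mem_filter]
    rcases h m with h1 | h1 | h1
    · exact Or.inl h1
    · exact absurd h1 hm.2
    · exact Or.inr ⟨h1, by rw [decide_eq_true_eq]; exact ⟨m, rfl, hm.2⟩⟩
  refine (Finset.card_le_card hsub).trans ((Finset.card_insert_le _ _).trans ?_)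
  rw [List.countP_eq_length_filter]
  have := List.toFinset_card_le (us.filter (fun u => decide (∃ m, c m = u ∧ c m ∉ D)))
  omega

theorem nM_spec {M A D i : ℕ} (hi : i < 1024) (hM : M.testBit i = false) (hA : A.testBit i = false)
    (hD : D.testBit i = false) : (nM M A D).testBit i = true := by
  unfold nM
  rw [tb_xor, tb_lor, tb_lor, hM, hA, hD, W_spec hi]
  rfl

theorem leak_true {M A D i s s2 s3 s4 : ℕ} (hs : IsLine s s2 s3 s4) (hi : i + 4 * s < 1024) {u : Cell}
    (huM : u ∉ bd M) (huA : u ∉ bd A) (m : Fin 5) (hm : cell (i + m * s) = u) (hD : cell (i + m * s) ∉ bd D) :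
    (hit (nM M A D) s s2 s4).testBit i = true := by
  subst hm
  rw [mem_bd, Bool.not_eq_true] at huM huA hD
  rw [tb_hit hs]
  have hlt : i + m * s < 1024 := by
    have : (m : ℕ) * s ≤ 4 * s := Nat.mul_le_mul_right _ (by omega)
    omega
  have := nM_spec hlt huM huA hD
  fin_cases m <;> simp only [Nat.zero_mul, Nat.one_mul, Nat.add_zero] at this <;> rw [this] <;> simp

theorem isLine_of_step {s : ℕ} : IsLine s (2 * s) (3 * s) (4 * s) := ⟨rfl, rfl, rfl⟩

theorem bits_sum (D i s : ℕ) (c : Fin 5 → Cell) (hc : ∀ m : Fin 5, c m = cell (i + m * s)) [DecidablePred fun m : Fin 5 => c m ∉ bd D] :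
    (D.testBit i).toNat + (D.testBit (i + s)).toNat + (D.testBit (i + 2 * s)).toNat +
      (D.testBit (i + 3 * s)).toNat + (D.testBit (i + 4 * s)).toNat +
      (Finset.univ.filter (fun m => c m ∉ bd D)).card = 5 := by
  rw [Finset.card_filter, Fin.sum_univ_five]
  have e : ∀ m : Fin 5, (if c m ∉ bd D then 1 else 0) = 1 - (D.testBit (i + m * s)).toNat := by
    intro m
    have hm : c m ∉ bd D ↔ ¬ D.testBit (i + m * s) = true := by rw [hc m, mem_bd]
    by_cases hb : D.testBit (i + m * s) = true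
    · rw [if_neg (by rw [hm]; exact fun h => h hb), hb]; rfl
    · rw [if_pos (by rw [hm]; exact hb)]
      rw [Bool.not_eq_true] at hb
      rw [hb]; rfl
  rw [e, e, e, e, e]
  simp only [Fin.val_zero, Fin.val_one, Fin.val_two, Nat.zero_mul, Nat.one_mul, Nat.add_zero,
    show ((3 : Fin 5) : ℕ) = 3 from rfl, show ((4 : Fin 5) : ℕ) = 4 from rfl]
  have hb : ∀ b : Bool, b.toNat ≤ 1 := fun b => by cases b <;> simp
  have h0 := hb (D.testBit i)
  have h1 := hb (D.testBit (i + s))
  have h2 := hb (D.testBit (i + 2 * s))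
  have h3 := hb (D.testBit (i + 3 * s))
  have h4 := hb (D.testBit (i + 4 * s))
  omega

theorem safe {A D : ℕ} {Ms : List ℕ} (h : fz A D Ms = true) {us : List Cell} (hus : Avoid A Ms us) {y : Cell}
    (hy : y ∉ bd A) : ¬ Five (insert y (bd D ∪ {u | u ∈ us})) := by
  classical
  rintro ⟨a, d, hd, hk⟩
  unfold fz at h
  rw [Bool.and_eq_true, Bool.and_eq_true] at h
  obtain ⟨hAD, hDR, h⟩ := h
  rw [dis_iff] at hAD
  rw [sub_iff] at hDR
  obtain ⟨hF, huA⟩ := hus
  have hlen : us.length = Ms.length := hF.length_eq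
  have hlen3 : Ms.length ≤ 3 := by
    match Ms, h with
    | [], _ => simp
    | [_], _ => simp
    | [_, _], _ => simp
    | [_, _, _], _ => simp
    | _ :: _ :: _ :: _ :: _, h => exact absurd h (by simp)
  -- a cell of the line in `D`
  have hinj0 : Function.Injective (fun m : Fin 5 => a + ((m : ℕ) : ℤ) • d) := by
    intro m n hmn
    simp only [add_right_inj] at hmn
    have hd' : d = (1, 0) ∨ d = (0, 1) ∨ d = (1, 1) ∨ d = (1, -1) := by simpa [dirs] using hd
    rcases hd' with rfl | rfl | rfl | rfl <;>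
      simp only [Prod.smul_mk, smul_eq_mul, Prod.mk.injEq, mul_one, mul_zero] at hmn <;>
      (apply Fin.ext; omega)
  have hex : ∃ k0 : ℕ, k0 < 5 ∧ a + (k0 : ℤ) • d ∈ bd D := by
    by_contra hno
    push Not at hno
    have hle := count_le (fun m : Fin 5 => a + ((m : ℕ) : ℤ) • d) hinj0 y (bd D) us (fun m => hk m m.2)
    have hall : (Finset.univ.filter (fun m : Fin 5 => (fun m : Fin 5 => a + ((m : ℕ) : ℤ) • d) m ∉ bd D)) =
        Finset.univ := by
      apply Finset.filter_true_of_mem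
      intro m _
      exact hno m m.2
    rw [hall] at hle
    have h5 : (Finset.univ : Finset (Fin 5)).card = 5 := by simp
    rw [h5] at hle
    have h6 := hle.trans (Nat.add_le_add_left List.countP_le_length 1)
    omega
  obtain ⟨k0, hk0, j0, hj0, hj⟩ := hex
  obtain ⟨i, s, hs, hi, hS⟩ := frame hd hk hk0 hj.symm (hDR j0 hj0)
  have hspos : 0 < s := by rcases hs with rfl | rfl | rfl | rfl <;> norm_num
  set c : Fin 5 → Cell := fun m => cell (i + m * s) with hc
  have hcinj : Function.Injective c := by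
    intro m n hmn
    have := cell_inj hmn
    have : (m : ℕ) * s = n * s := by omega
    exact Fin.ext (Nat.eq_of_mul_eq_mul_right hspos this)
  have hcS : ∀ m, c m ∈ insert y (bd D ∪ {u | u ∈ us}) := fun m => hS m m.2
  have hcA : ∀ m, c m ∉ bd A := by
    intro m hm
    rcases hcS m with h1 | h1 | h1
    · exact hy (h1 ▸ hm)
    · rw [hc] at hm h1
      rw [mem_bd] at hm h1
      rw [hAD _ hm] at h1
      exact Bool.false_ne_true h1
    · exact huA _ h1 hm
  have hL : IsLine s (2 * s) (3 * s) (4 * s) := isLine_of_step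
  have hA0 : (hit A s (2 * s) (4 * s)).testBit i = false := by
    rw [tb_hit hL]
    have h0 := hcA 0
    have h1 := hcA 1
    have h2 := hcA 2
    have h3 := hcA 3
    have h4 := hcA 4
    simp only [hc, mem_bd, Bool.not_eq_true, Fin.val_zero, Fin.val_one, Fin.val_two, Nat.zero_mul, Nat.one_mul,
      Nat.add_zero, show ((3 : Fin 5) : ℕ) = 3 from rfl, show ((4 : Fin 5) : ℕ) = 4 from rfl] at h0 h1 h2 h3 h4
    rw [h0, h1, h2, h3, h4]
    rfl
  have hsum := bits_sum D i s c (fun _ => rfl)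
  have hcnt := count_le c hcinj y (bd D) us hcS
  match Ms, h, hF with
  | [], h, hF =>
    have hus : us = [] := by cases hF; rfl
    subst hus
    simp only [List.countP_nil] at hcnt
    have key : fz0s A D s (2 * s) (3 * s) (4 * s) = true := by
      simp only [Bool.and_eq_true] at h
      rcases hs with rfl | rfl | rfl | rfl
      · exact h.1
      · exact h.2.2.2
      · exact h.2.1
      · exact h.2.2.1
    have := fz0s_spec hL key i _ _ _ _ _ rfl rfl rfl rfl rfl hA0
    omega
  | [M1], h, hF =>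
    obtain ⟨u1, rfl⟩ : ∃ u1, us = [u1] := by
      have : us.length = 1 := hF.length_eq
      exact List.length_eq_one_iff.1 this
    rw [List.forall₂_cons] at hF
    simp only [List.countP_cons, List.countP_nil] at hcnt
    have key : fz1s A D (nM M1 A D) s (2 * s) (3 * s) (4 * s) = true := by
      simp only [Bool.and_eq_true] at h
      rcases hs with rfl | rfl | rfl | rfl
      · exact h.1
      · exact h.2.2.2
      · exact h.2.1
      · exact h.2.2.1
    have := fz1s_spec hL key i _ _ _ _ _ _ rfl rfl rfl rfl rfl hA0 rfl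
    have l1 : (if decide (∃ m, c m = u1 ∧ c m ∉ bd D) = true then 1 else 0) ≤
        ((hit (nM M1 A D) s (2 * s) (4 * s)).testBit i).toNat := by
      split_ifs with hh
      · rw [decide_eq_true_eq] at hh
        obtain ⟨m, hm, hmD⟩ := hh
        rw [leak_true hL hi hF.1 (huA u1 (by simp)) m hm hmD]; rfl
      · exact Nat.zero_le _
    omega
  | [M1, M2], h, hF =>
    obtain ⟨u1, u2, rfl⟩ : ∃ u1 u2, us = [u1, u2] := by
      have : us.length = 2 := hF.length_eq
      exact List.length_eq_two.1 this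
    rw [List.forall₂_cons, List.forall₂_cons] at hF
    simp only [List.countP_cons, List.countP_nil] at hcnt
    have key : fz2s A D (nM M1 A D) (nM M2 A D) s (2 * s) (3 * s) (4 * s) = true := by
      simp only [Bool.and_eq_true] at h
      rcases hs with rfl | rfl | rfl | rfl
      · exact h.1
      · exact h.2.2.2
      · exact h.2.1
      · exact h.2.2.1
    have := fz2s_spec hL key i _ _ _ _ _ _ _ rfl rfl rfl rfl rfl hA0 rfl rfl
    have l1 : (if decide (∃ m, c m = u1 ∧ c m ∉ bd D) = true then 1 else 0) ≤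
        ((hit (nM M1 A D) s (2 * s) (4 * s)).testBit i).toNat := by
      split_ifs with hh
      · rw [decide_eq_true_eq] at hh
        obtain ⟨m, hm, hmD⟩ := hh
        rw [leak_true hL hi hF.1 (huA u1 (by simp)) m hm hmD]; rfl
      · exact Nat.zero_le _
    have l2 : (if decide (∃ m, c m = u2 ∧ c m ∉ bd D) = true then 1 else 0) ≤
        ((hit (nM M2 A D) s (2 * s) (4 * s)).testBit i).toNat := by
      split_ifs with hh
      · rw [decide_eq_true_eq] at hh
        obtain ⟨m, hm, hmD⟩ := hh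
        rw [leak_true hL hi hF.2.1 (huA u2 (by simp)) m hm hmD]; rfl
      · exact Nat.zero_le _
    omega
  | [M1, M2, M3], h, hF =>
    obtain ⟨u1, u2, u3, rfl⟩ : ∃ u1 u2 u3, us = [u1, u2, u3] := by
      have : us.length = 3 := hF.length_eq
      exact List.length_eq_three.1 this
    rw [List.forall₂_cons, List.forall₂_cons, List.forall₂_cons] at hF
    simp only [List.countP_cons, List.countP_nil] at hcnt
    have key : fz3s A D (nM M1 A D) (nM M2 A D) (nM M3 A D) s (2 * s) (3 * s) (4 * s) = true := by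
      simp only [Bool.and_eq_true] at h
      rcases hs with rfl | rfl | rfl | rfl
      · exact h.1
      · exact h.2.2.2
      · exact h.2.1
      · exact h.2.2.1
    have l1 : (if decide (∃ m, c m = u1 ∧ c m ∉ bd D) = true then 1 else 0) ≤
        ((hit (nM M1 A D) s (2 * s) (4 * s)).testBit i).toNat := by
      split_ifs with hh
      · rw [decide_eq_true_eq] at hh
        obtain ⟨m, hm, hmD⟩ := hh
        rw [leak_true hL hi hF.1 (huA u1 (by simp)) m hm hmD]; rfl
      · exact Nat.zero_le _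
    have l2 : (if decide (∃ m, c m = u2 ∧ c m ∉ bd D) = true then 1 else 0) ≤
        ((hit (nM M2 A D) s (2 * s) (4 * s)).testBit i).toNat := by
      split_ifs with hh
      · rw [decide_eq_true_eq] at hh
        obtain ⟨m, hm, hmD⟩ := hh
        rw [leak_true hL hi hF.2.1 (huA u2 (by simp)) m hm hmD]; rfl
      · exact Nat.zero_le _
    have l3 : (if decide (∃ m, c m = u3 ∧ c m ∉ bd D) = true then 1 else 0) ≤
        ((hit (nM M3 A D) s (2 * s) (4 * s)).testBit i).toNat := by
      split_ifs with hh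
      · rw [decide_eq_true_eq] at hh
        obtain ⟨m, hm, hmD⟩ := hh
        rw [leak_true hL hi hF.2.2.1 (huA u3 (by simp)) m hm hmD]; rfl
      · exact Nat.zero_le _
    have l1' : (if decide (∃ m, c m = u1 ∧ c m ∉ bd D) = true then 1 else 0) ≤ 1 := by split_ifs <;> norm_num
    have l2' : (if decide (∃ m, c m = u2 ∧ c m ∉ bd D) = true then 1 else 0) ≤ 1 := by split_ifs <;> norm_num
    have l3' : (if decide (∃ m, c m = u3 ∧ c m ∉ bd D) = true then 1 else 0) ≤ 1 := by split_ifs <;> norm_num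
    have := fz3s_spec hL key i _ _ _ _ _ _ _ _ rfl rfl rfl rfl rfl hA0 rfl rfl rfl (by omega)
    omega
  | _ :: _ :: _ :: _ :: _, h, _ => exact absurd h (by simp)

end Pool.Agent.H184.Gomoku
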