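import Pool.Agent.H184.Gomoku.Sound2

set_option autoImplicit false

/-!
# Soundness of the checker
-/

namespace Pool.Agent.H184.Gomoku

/-- The owner of `A`, to move, wins in boundedly many moves, wherever the further stones of the other player
(one for each mask, outside the mask) are. -/
def Good (A D : ℕ) (Ms : List ℕ) : Prop :=
  ∃ n, ∀ us, Avoid A Ms us → Win n (bd A) (bd D ∪ {u | u ∈ us})

theorem pat_spec (d : ℕ) : ∀ j < 5, (pat d).testBit (j * stp d) = true := by
  unfold pat stp
  generalize Nat.beq d 0 = b0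
  generalize Nat.beq d 1 = b1
  generalize Nat.beq d 2 = b2
  revert b0 b1 b2
  decide

theorem lineM_spec (x d o : ℕ) : ∀ j < 5, (lineM x d o).testBit ((x - o * stp d) + j * stp d) = true := by
  intro j hj
  unfold lineM
  have : (Nat.shiftLeft (pat d) (Nat.sub x (Nat.mul o (stp d)))) = (pat d) <<< (x - o * stp d) := rfl
  rw [this, Nat.testBit_shiftLeft]
  have h := pat_spec d j hj
  simp [h]

theorem stp_cases (d : ℕ) : stp d = 1 ∨ stp d = 32 ∨ stp d = 33 ∨ stp d = 31 := by
  unfold stp
  cases Nat.beq d 0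
  · cases Nat.beq d 1
    · cases Nat.beq d 2
      · right; right; right; rfl
      · right; right; left; rfl
    · right; left; rfl
  · left; rfl

theorem line_five {x d o B : ℕ} (h1 : sub (lineM x d o) B = true) (h2 : sub (lineM x d o) R = true) :
    Five (bd B) := by
  rw [sub_iff] at h1 h2
  have hB : ∀ j < 5, cell ((x - o * stp d) + j * stp d) ∈ bd B := fun j hj => mem_bd.2 (h1 _ (lineM_spec x d o j hj))
  have hR : ∀ j < 5, _ := fun j hj => R_spec (h2 _ (lineM_spec x d o j hj))
  generalize x - o * stp d = st at hB hR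
  have r0 := hR 0 (by norm_num)
  have r4 := hR 4 (by norm_num)
  rcases stp_cases d with hs | hs | hs | hs <;> rw [hs] at hB r0 r4
  · refine ⟨cell st, (1, 0), by simp [dirs], fun k hk => ?_⟩
    have e : cell st + (k : ℤ) • ((1 : ℤ), (0 : ℤ)) = cell (st + k * 1) := by
      unfold cell
      simp only [Prod.smul_mk, smul_eq_mul, Prod.mk_add_mk, Prod.mk.injEq]
      constructor <;> omega
    rw [e]; exact hB k hk
  · refine ⟨cell st, (0, 1), by simp [dirs], fun k hk => ?_⟩
    have e : cell st + (k : ℤ) • ((0 : ℤ), (1 : ℤ)) = cell (st + k * 32) := by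
      unfold cell
      simp only [Prod.smul_mk, smul_eq_mul, Prod.mk_add_mk, Prod.mk.injEq]
      constructor <;> omega
    rw [e]; exact hB k hk
  · refine ⟨cell st, (1, 1), by simp [dirs], fun k hk => ?_⟩
    have e : cell st + (k : ℤ) • ((1 : ℤ), (1 : ℤ)) = cell (st + k * 33) := by
      unfold cell
      simp only [Prod.smul_mk, smul_eq_mul, Prod.mk_add_mk, Prod.mk.injEq]
      constructor <;> omega
    rw [e]; exact hB k hk
  · refine ⟨cell (st + 4 * 31), (1, -1), by simp [dirs], fun k hk => ?_⟩
    have e : cell (st + 4 * 31) + (k : ℤ) • ((1 : ℤ), (-1 : ℤ)) = cell (st + (4 - k) * 31) := by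
      unfold cell
      simp only [Prod.smul_mk, smul_eq_mul, Prod.mk_add_mk, Prod.mk.injEq]
      constructor <;> omega
    rw [e]; exact hB (4 - k) (by omega)

theorem rdY_sound : ∀ (c s Y : ℕ) (l : List ℕ) (k : ℕ → ℕ → List ℕ → Bool),
    (∀ i, Y.testBit i = true → i ∈ l) → rdY c s Y l k = true →
    ∃ s1 Y1 l1, k s1 Y1 l1 = true ∧ ∀ i, Y1.testBit i = true → i ∈ l1 := by
  intro c
  induction c with
  | zero => intro s Y l k hY h; exact ⟨s, Y, l, h, hY⟩
  | succ c ih =>
    intro s Y l k hY h
    refine ih _ _ _ k ?_ h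
    intro i hi
    rw [tb_lor, Bool.or_eq_true, tb_bit, decide_eq_true_eq] at hi
    rcases hi with hi | hi
    · exact List.mem_cons_of_mem _ (hY i hi)
    · rw [← hi]; exact List.mem_cons_self

theorem chL_sound (f : ℕ → ℕ → (ℕ → Bool) → Bool) (G : ℕ → Prop) (AD D : ℕ)
    (hf : ∀ s D' k', f s D' k' = true → G D' ∧ ∃ s', k' s' = true) :
    ∀ (l : List ℕ) (s : ℕ) (k : ℕ → Bool), chL f AD D l s k = true →
      (∀ y ∈ l, dis AD (bit y) = true → G (Nat.lor D (bit y))) ∧ ∃ s', k s' = true := by
  intro l
  induction l with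
  | nil => intro s k h; exact ⟨by simp, s, h⟩
  | cons y l ih =>
    intro s k h
    unfold chL at h
    cases hd : dis AD (bit y) with
    | true =>
      rw [hd, cond_true] at h
      obtain ⟨hG, s', hs'⟩ := hf _ _ _ h
      obtain ⟨h1, h2⟩ := ih _ _ hs'
      refine ⟨fun z hz hdz => ?_, h2⟩
      rcases List.mem_cons.1 hz with rfl | hz
      · exact hG
      · exact h1 z hz hdz
    | false =>
      rw [hd, cond_false] at h
      obtain ⟨h1, h2⟩ := ih _ _ h
      refine ⟨fun z hz hdz => ?_, h2⟩
      rcases List.mem_cons.1 hz with rfl | hz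
      · rw [hd] at hdz; exact absurd hdz Bool.false_ne_true
      · exact h1 z hz hdz

theorem known_sound : ∀ (K : List (ℕ × ℕ)) (A D : ℕ), known K A D = true → (A, D) ∈ K := by
  intro K A D
  induction K with
  | nil => intro h; exact absurd h Bool.false_ne_true
  | cons p l ih =>
    intro h
    unfold known at h
    rw [Bool.or_eq_true, Bool.and_eq_true] at h
    rcases h with ⟨h1, h2⟩ | h
    · have e1 : p.1 = A := Nat.eq_of_beq_eq_true h1
      have e2 : p.2 = D := Nat.eq_of_beq_eq_true h2
      rw [← e1, ← e2]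
      exact List.mem_cons_self
    · exact List.mem_cons_of_mem _ (ih h)

/-- uniform bound -/
theorem unif {P : ℕ → ℕ → Prop} {Q : ℕ → Prop} (hmono : ∀ n m y, n ≤ m → P n y → P m y) (l : List ℕ)
    (h : ∀ y ∈ l, Q y → ∃ n, P n y) : ∃ N, ∀ y ∈ l, Q y → P N y := by
  classical
  induction l with
  | nil => exact ⟨0, by simp⟩
  | cons y l ih =>
    obtain ⟨N, hN⟩ := ih (fun z hz => h z (List.mem_cons_of_mem _ hz))
    by_cases hQ : Q y
    · obtain ⟨n, hn⟩ := h y List.mem_cons_self hQ
      refine ⟨max n N, fun z hz hQz => ?_⟩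
      rcases List.mem_cons.1 hz with rfl | hz
      · exact hmono _ _ _ (le_max_left _ _) hn
      · exact hmono _ _ _ (le_max_right _ _) (hN z hz hQz)
    · refine ⟨N, fun z hz hQz => ?_⟩
      rcases List.mem_cons.1 hz with rfl | hz
      · exact absurd hQz hQ
      · exact hN z hz hQz

theorem notMem_of_dis {A D x : ℕ} (h : dis (Nat.lor A D) (bit x) = true) : cell x ∉ bd A ∧ cell x ∉ bd D := by
  rw [dis_iff] at h
  constructor
  · intro hx
    rw [mem_bd] at hx
    have := h x (by rw [tb_lor, hx]; rfl)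
    rw [tb_bit] at this
    simp at this
  · intro hx
    rw [mem_bd] at hx
    have := h x (by rw [tb_lor, hx, Bool.or_true])
    rw [tb_bit] at this
    simp at this

theorem dis_of_notMem {A D x : ℕ} (h1 : cell x ∉ bd A) (h2 : cell x ∉ bd D) :
    dis (Nat.lor A D) (bit x) = true := by
  rw [dis_iff]
  intro i hi
  rw [tb_bit, decide_eq_false_iff_not]
  rintro rfl
  rw [tb_lor, Bool.or_eq_true] at hi
  rw [mem_bd] at h1 h2
  exact hi.elim h1 h2

theorem avoid_insert {A x : ℕ} {Ms : List ℕ} {us : List Cell} (h : Avoid A Ms us)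
    (hM : ∀ M ∈ Ms, M.testBit x = true) : Avoid (Nat.lor A (bit x)) Ms us := by
  refine ⟨h.1, fun u hu => ?_⟩
  rw [bd_insert]
  rintro (h1 | h1)
  · obtain ⟨M, hM1, hM2⟩ : ∃ M ∈ Ms, u ∉ bd M := by
      have hF := h.1
      clear h
      induction hF with
      | nil => simp at hu
      | cons hab _ ih =>
        rcases List.mem_cons.1 hu with rfl | hu
        · exact ⟨_, List.mem_cons_self, hab⟩
        · obtain ⟨M, h3, h4⟩ := ih (fun M hM' => hM M (List.mem_cons_of_mem _ hM')) hu
          exact ⟨M, List.mem_cons_of_mem _ h3, h4⟩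
    rw [h1, mem_bd] at hM2
    exact hM2 (hM M hM1)
  · exact h.2 u hu h1

theorem notMem_us {A x : ℕ} {Ms : List ℕ} {us : List Cell} (h : Avoid A Ms us)
    (hM : ∀ M ∈ Ms, M.testBit x = true) : cell x ∉ us := by
  intro hx
  have h2 := (avoid_insert h hM).2 _ hx
  rw [bd_insert] at h2
  exact h2 (Set.mem_insert _ _)

theorem sub_bit {x C : ℕ} (h : sub (bit x) C = true) : C.testBit x = true := by
  rw [sub_iff] at h
  exact h x (by rw [tb_bit]; simp)

theorem sub_lor_left {a b c : ℕ} (h : sub (Nat.lor a b) c = true) : sub a c = true := by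
  rw [sub_iff] at h ⊢
  intro i hi
  exact h i (by rw [tb_lor, hi]; rfl)

theorem sub_lor_right {a b c : ℕ} (h : sub (Nat.lor a b) c = true) : sub b c = true := by
  rw [sub_iff] at h ⊢
  intro i hi
  exact h i (by rw [tb_lor, hi, Bool.or_true])

theorem dis_lor_left {a b c : ℕ} (h : dis a (Nat.lor b c) = true) : dis a b = true := by
  rw [dis_iff] at h ⊢
  intro i hi
  have := h i hi
  rw [tb_lor, Bool.or_eq_false_iff] at this
  exact this.1

theorem dis_lor_right {a b c : ℕ} (h : dis a (Nat.lor b c) = true) : dis a c = true := by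
  rw [dis_iff] at h ⊢
  intro i hi
  have := h i hi
  rw [tb_lor, Bool.or_eq_false_iff] at this
  exact this.2

theorem bd_insert_union (D y : ℕ) (S : Set Cell) : bd (Nat.lor D (bit y)) ∪ S = insert (cell y) (bd D ∪ S) := by
  rw [bd_insert, Set.insert_union]

theorem good_five {A D C x d o : ℕ} {Ms : List ℕ} (hC : ∀ M ∈ Ms, ∀ i, C.testBit i = true → M.testBit i = true)
    (h1 : sub (bit x) C = true) (h2 : dis (Nat.lor A D) (bit x) = true)
    (h3 : sub (lineM x d o) (Nat.lor A (bit x)) = true) (h4 : sub (lineM x d o) R = true) : Good A D Ms := by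
  refine ⟨1, fun us hus => ⟨cell x, (notMem_of_dis h2).1, ?_, Or.inl ?_⟩⟩
  · rintro (h | h)
    · exact (notMem_of_dis h2).2 h
    · exact notMem_us hus (fun M hM => hC M hM x (sub_bit h1)) h
  · rw [← bd_insert]
    exact line_five h3 h4

theorem good_four {A D C x y d o : ℕ} {Ms : List ℕ}
    (hC : ∀ M ∈ Ms, ∀ i, C.testBit i = true → M.testBit i = true)
    (h1 : sub (Nat.lor (bit x) (bit y)) C = true) (h2 : dis (Nat.lor A D) (Nat.lor (bit x) (bit y)) = true)
    (h3 : dis (bit x) (bit y) = true) (h4 : sub (lineM x d o) (Nat.lor A (Nat.lor (bit x) (bit y))) = true)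
    (h5 : sub (lineM x d o) R = true) (h6 : fz (Nat.lor A (bit x)) D Ms = true)
    (h7 : Good (Nat.lor A (bit x)) (Nat.lor D (bit y)) Ms) : Good A D Ms := by
  obtain ⟨n, hn⟩ := h7
  have hxC := sub_bit (sub_lor_left h1)
  have hyC := sub_bit (sub_lor_right h1)
  have hx := notMem_of_dis (dis_lor_left h2)
  have hy := notMem_of_dis (dis_lor_right h2)
  have hxy : cell x ≠ cell y := by
    intro he
    have he := cell_inj he
    subst he
    rw [dis_iff] at h3
    have := h3 x (by rw [tb_bit]; simp)
    rw [tb_bit] at this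
    simp at this
  refine ⟨n + 2, fun us hus => ⟨cell x, hx.1, ?_, Or.inr fun y' hy' hy'' => ⟨?_, ?_⟩⟩⟩
  · rintro (h | h)
    · exact hx.2 h
    · exact notMem_us hus (fun M hM => hC M hM x hxC) h
  · refine safe h6 (avoid_insert hus fun M hM => hC M hM x hxC) ?_
    rw [bd_insert]; exact hy'
  · by_cases he : y' = cell y
    · subst he
      have := hn us (avoid_insert hus fun M hM => hC M hM x hxC)
      rw [bd_insert, bd_insert_union] at this
      exact this.mono (by omega)
    · have hw : Win 1 (insert (cell x) (bd A)) (insert y' (bd D ∪ {u | u ∈ us})) := by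
        refine ⟨cell y, ?_, ?_, Or.inl ?_⟩
        · rintro (h | h)
          · exact hxy h.symm
          · exact hy.1 h
        · rintro (h | h | h)
          · exact he h.symm
          · exact hy.2 h
          · exact notMem_us hus (fun M hM => hC M hM y hyC) h
        · rw [← bd_insert, ← bd_insert]
          have e : Nat.lor A (Nat.lor (bit x) (bit y)) = Nat.lor (Nat.lor A (bit x)) (bit y) := by
            apply Nat.eq_of_testBit_eq
            intro i
            rw [tb_lor, tb_lor, tb_lor, tb_lor, Bool.or_assoc]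
          rw [← e]
          exact line_five h4 h5
      exact hw.mono (by omega)

theorem good_quiet {A D C x Y : ℕ} {l : List ℕ} {Ms : List ℕ}
    (hC : ∀ M ∈ Ms, ∀ i, C.testBit i = true → M.testBit i = true)
    (h1 : sub (bit x) C = true) (h2 : dis (Nat.lor A D) (bit x) = true)
    (h3 : fz (Nat.lor A (bit x)) D Ms = true) (hl : ∀ i, Y.testBit i = true → i ∈ l)
    (h4 : Good (Nat.lor A (bit x)) D (Y :: Ms))
    (h5 : ∀ y ∈ l, dis (Nat.lor (Nat.lor A (bit x)) D) (bit y) = true →
      Good (Nat.lor A (bit x)) (Nat.lor D (bit y)) Ms) : Good A D Ms := by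
  obtain ⟨n, hn⟩ := h4
  obtain ⟨N, hN⟩ := unif (P := fun n y => ∀ us, Avoid (Nat.lor A (bit x)) Ms us →
      Win n (bd (Nat.lor A (bit x))) (bd (Nat.lor D (bit y)) ∪ {u | u ∈ us}))
    (fun n m y hnm h us hus => (h us hus).mono hnm) l h5
  have hxC := sub_bit h1
  have hx := notMem_of_dis h2
  refine ⟨max n N + 1, fun us hus => ⟨cell x, hx.1, ?_, Or.inr fun y' hy' hy'' => ⟨?_, ?_⟩⟩⟩
  · rintro (h | h)
    · exact hx.2 h
    · exact notMem_us hus (fun M hM => hC M hM x hxC) h
  · refine safe h3 (avoid_insert hus fun M hM => hC M hM x hxC) ?_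
    rw [bd_insert]; exact hy'
  · have hav := avoid_insert hus fun M hM => hC M hM x hxC
    by_cases hY : y' ∈ bd Y
    · obtain ⟨i, hi, rfl⟩ := hY
      have := hN i (hl i hi) (dis_of_notMem (by rw [bd_insert]; exact hy') (fun h => hy'' (Or.inl h))) us hav
      rw [bd_insert, bd_insert_union] at this
      exact this.mono (le_max_right _ _)
    · have hav' : Avoid (Nat.lor A (bit x)) (Y :: Ms) (y' :: us) := by
        refine ⟨List.Forall₂.cons hY hav.1, fun u hu => ?_⟩
        rcases List.mem_cons.1 hu with rfl | hu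
        · rw [bd_insert]; exact hy'
        · exact hav.2 u hu
      have := hn (y' :: us) hav'
      have e : bd D ∪ {u | u ∈ y' :: us} = insert y' (bd D ∪ {u | u ∈ us}) := by
        ext u
        simp only [Set.mem_union, Set.mem_setOf_eq, List.mem_cons, Set.mem_insert_iff]
        tauto
      rw [e, bd_insert] at this
      exact this.mono (le_max_left _ _)

theorem chk_sound (K : List (ℕ × ℕ)) (hK : ∀ p ∈ K, Good p.1 p.2 []) :
    ∀ (n s A D C : ℕ) (Ms : List ℕ) (k : ℕ → Bool),
      (∀ M ∈ Ms, ∀ i, C.testBit i = true → M.testBit i = true) →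
      chk K n s A D C Ms k = true → Good A D Ms ∧ ∃ s', k s' = true := by
  intro n
  induction n with
  | zero => intro s A D C Ms k _ h; exact absurd h Bool.false_ne_true
  | succ n ih =>
    intro s A D C Ms k hC h
    unfold chk at h
    dsimp only at h
    cases h0 : Nat.beq (Nat.land s 3) 0 with
    | true =>
      rw [h0, cond_true] at h
      simp only [Bool.and_eq_true] at h
      obtain ⟨a1, a2, a3, a4, a5⟩ := h
      exact ⟨good_five hC a1 a2 a3 a4, _, a5⟩
    | false =>
      rw [h0, cond_false] at h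
      cases h1 : Nat.beq (Nat.land s 3) 1 with
      | true =>
        rw [h1, cond_true] at h
        simp only [Bool.and_eq_true] at h
        obtain ⟨a1, a2, a3, a4, a5, a6, a7⟩ := h
        obtain ⟨g, hk⟩ := ih _ _ _ _ _ _ hC a7
        exact ⟨good_four hC a1 a2 a3 a4 a5 a6 g, hk⟩
      | false =>
        rw [h1, cond_false] at h
        cases h2 : Nat.beq (Nat.land s 3) 2 with
        | true =>
          rw [h2, cond_true] at h
          simp only [Bool.and_eq_true] at h
          obtain ⟨a1, a2, a3, a4⟩ := h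
          obtain ⟨s1, Y, l, h5, hl⟩ := rdY_sound _ _ _ _ _ (by intro i hi; rw [Nat.zero_testBit] at hi; exact absurd hi Bool.false_ne_true) a4
          obtain ⟨g, s2, h6⟩ := ih _ _ _ _ _ _ (by
            intro M hM i hi
            rw [tb_land, Bool.and_eq_true] at hi
            rcases List.mem_cons.1 hM with rfl | hM
            · exact hi.2
            · exact hC M hM i hi.1) h5
          obtain ⟨h7, h8⟩ := chL_sound _ (fun D' => Good (Nat.lor A (bit (Nat.land (Nat.shiftRight s 2) 1023))) D' Ms)
            _ _ (fun s D' k' h => ih _ _ _ _ _ _ hC h) _ _ _ h6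
          exact ⟨good_quiet hC a1 a2 a3 hl g h7, h8⟩
        | false =>
          rw [h2, cond_false] at h
          simp only [Bool.and_eq_true] at h
          obtain ⟨a1, a2, a3⟩ := h
          refine ⟨?_, _, a3⟩
          match Ms, a2 with
          | [], _ => exact hK (A, D) (known_sound K A D a1)
          | _ :: _, a2 => exact absurd a2 Bool.false_ne_true

/-- the form in which certificates are used -/
theorem good_of_chk {K : List (ℕ × ℕ)} (hK : ∀ p ∈ K, Good p.1 p.2 []) {n s A D C : ℕ}
    (h : chk K n s A D C [] (fun _ => true) = true) : Good A D [] :=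
  (chk_sound K hK n s A D C [] _ (by simp) h).1

end Pool.Agent.H184.Gomoku
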